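import Pool.Agent.Y757.LS.Crit

set_option autoImplicit false

/-!
# The Lindelöf hypothesis and one-sided bounds for the horizontal integral of `log |ζ|`

Let `J(t) = ∫_{1/2}^2 log |ζ(σ + it)| dσ`; by Littlewood's lemma `J(t) = π S₁(t) + O(1)`, where
`S₁(t) = ∫_0^t S(u) du` and `S` is the argument of zeta on the critical line. It is known that the Lindelöf
hypothesis is equivalent to `S₁(t) = o(log t)`. We show that the upper bound `J(t) ≤ o(log t)` is enough, with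
explicit exponents: if `J(t) ≤ a log t` for all large `t`, with `a < κ²` (`1/8 ≤ κ ≤ 1/4`) or
`a < (64/27) κ³ / (1 - 16κ/3)` (`0 < κ < 1/8`), then `ζ(1/2 + it) = O((1 + |t|)^(κ + ε))` for every `ε > 0`. The
proof is local: a large value of zeta on the critical line at height `T` forces a large positive value
of `J` at a bounded distance from `T`.
-/

namespace Pool.Agent.Results.MP_4e5e8a_nt.OneSidedHorizontal

/-- `J(t) = ∫_{1/2}^2 log |ζ(σ + it)| dσ` -/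
noncomputable def J (t : ℝ) : ℝ :=
  ∫ σ in (1 / 2 : ℝ)..2, Real.log ‖riemannZeta ((σ : ℂ) + (t : ℂ) * Complex.I)‖

/-- `|ζ(1/2 + it)| = O((1 + |t|)^(κ + ε))` for every `ε > 0`; for `κ = 0` this is the Lindelöf
hypothesis -/
def Exponent (κ : ℝ) : Prop := ∀ ε : ℝ, 0 < ε → ∃ C : ℝ, ∀ t : ℝ,
  ‖riemannZeta (1 / 2 + (t : ℂ) * Complex.I)‖ ≤ C * (1 + |t|) ^ (κ + ε)

/-- `κ²` for `κ ≥ 1/8` and `(64/27) κ³ / (1 - 16κ/3)` for `κ < 1/8` -/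
noncomputable def law (κ : ℝ) : ℝ := if κ < 1 / 8 then 64 / 27 * κ ^ 3 / (1 - 16 / 3 * κ) else κ ^ 2

lemma law_of {κ a : ℝ} (h0 : 0 < κ) (h1 : κ ≤ 1 / 4) (h : a < law κ) : Y757.LS.Law κ a := by
  unfold law at h
  split_ifs at h with h2
  · exact Y757.LS.law_cube h0 h2.le h
  · exact Y757.LS.law_sq (not_lt.1 h2) h1 h

theorem result :
    (Exponent 0 ↔ ∀ ε : ℝ, 0 < ε → ∃ T₀ : ℝ, ∀ t : ℝ, T₀ ≤ t → J t ≤ ε * Real.log t) ∧
    (∀ κ a : ℝ, 0 < κ → κ ≤ 1 / 4 → a < law κ →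
      (∃ T₀ : ℝ, ∀ t : ℝ, T₀ ≤ t → J t ≤ a * Real.log t) → Exponent κ) ∧
    (∀ κ a : ℝ, 0 < κ → κ ≤ 1 / 4 → a < law κ → ∃ B T₀ : ℝ, ∀ T : ℝ, T₀ ≤ T →
      T ^ κ ≤ ‖riemannZeta (1 / 2 + (T : ℂ) * Complex.I)‖ →
      ∃ t : ℝ, |t - T| ≤ B ∧ a * Real.log T ≤ J t) ∧
    (∃ C T₀ : ℝ, 0 < C ∧ ∀ T : ℝ, T₀ ≤ T →
      C * Real.log T ^ 2 ≤ Real.log ‖riemannZeta (1 / 2 + (T : ℂ) * Complex.I)‖ ^ 3 →
      ∃ t : ℝ, (t - T) ^ 2 ≤
          C * (Real.log T / Real.log ‖riemannZeta (1 / 2 + (T : ℂ) * Complex.I)‖) ^ 3 ∧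
        Real.log ‖riemannZeta (1 / 2 + (T : ℂ) * Complex.I)‖ ^ 3 / (64 * Real.log T ^ 2) ≤ J t) := by
  refine ⟨Y757.LS.lindelof_iff, fun κ a h0 h1 h2 ⟨T₀, h3⟩ => ?_, fun κ a h0 h1 h2 => ?_,
    Y757.LS.law_unif⟩
  · exact Y757.LS.crit h0.le (law_of h0 h1 h2) h3
  · exact Y757.LS.law_pow (law_of h0 h1 h2)

end Pool.Agent.Results.MP_4e5e8a_nt.OneSidedHorizontal
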