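import Mathlib
import Pool.Agent.Q30.OS.Zeta2

/-!
# The Lindelöf hypothesis and one-sided bounds for local means of `log |ζ|`

Let `ν` be a finite measure on a bounded part of the half plane `Re s ≥ 1/2` which charges every strip
`Re s < 1/2 + δ`; for example the length on a segment of the critical line, or on a horizontal segment that
starts at the critical line, the area of a rectangle or of a half disc at the critical line, or a series of
point masses at points that approach the critical line.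

Theorem.  (1) For `κ > 0` there are `a > 0` and `R` such that `|ζ(1/2 + iT)| ≥ T^κ`, `T` large, implies
`∫ log |ζ(s + it)| dν(s) ≥ a log T` for some `t` with `|t - T| ≤ R`.
(2) The Lindelöf hypothesis holds if and only if `∫ log |ζ(s + it)| dν(s) ≤ ε log t` for every `ε > 0` and
all large `t`.
(3) In particular (for every `h > 0`) it holds if and only if `∫_t^{t+h} log |ζ(1/2 + iu)| du ≤ ε log t` for
all `ε > 0` and large `t`, and if and only if `∫_{1/2}^{1/2+h} log |ζ(σ + it)| dσ ≤ ε log t`.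

The integrals contain the negative part of `log |ζ|`, about which nothing is assumed: on the critical line
`∫_t^{t+h} log |ζ(1/2 + iu)| du` could be small because of cancellation between large values of `|ζ|` and
clusters of zeros.  Statement (3) excludes this.  The proof (modules `Pool.Agent.Q30.OS`) is by compactness:
in a limit the function `log |ζ| / log t` is replaced by a function that is subharmonic, nonpositive on
the average near the critical line and zero on the right; Green's identity with a suitable test function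
shows that there are `o(log t)` zeros to the right of the line near `t`, and then Jensen's inequality and the
three circles theorem bound `ζ`.
-/

set_option autoImplicit false

open Complex MeasureTheory Set

namespace Pool.Agent.Results.MP_4e5e8a_nt.OneSidedMeans

/-- The Lindelöf hypothesis. -/
def Lindelof : Prop := ∀ ε : ℝ, 0 < ε → ∃ C : ℝ, ∀ t : ℝ,
  ‖riemannZeta (1 / 2 + (t : ℂ) * I)‖ ≤ C * (1 + |t|) ^ ε

/-- `ν` is concentrated on a bounded part of the half plane `Re s ≥ 1/2` and charges every strip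
`Re s < 1/2 + δ`. -/
def IsKernel (ν : Measure ℂ) : Prop :=
  (∃ b : ℝ, ∀ᵐ s ∂ν, 1 / 2 ≤ s.re ∧ s.re ≤ b ∧ |s.im| ≤ b) ∧
    ∀ δ : ℝ, 0 < δ → 0 < ν {s : ℂ | s.re < 1 / 2 + δ}

/-- The mean `∫ log |ζ(s + it)| dν(s)`. -/
noncomputable def mean (ν : Measure ℂ) (t : ℝ) : ℝ :=
  ∫ s, Real.log ‖riemannZeta (s + (t : ℂ) * I)‖ ∂ν

open Pool.Agent.Q30.OS

lemma lin_iff : Lindelof ↔ Y757.LS.Exponent 0 := by
  unfold Lindelof Y757.LS.Exponent Y757.LS.Z
  simp only [zero_add]

/-- the measure in the coordinate `s - 1/2` -/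
noncomputable def shf (ν : Measure ℂ) : Measure ℂ := ν.map fun s => s - 1 / 2

lemma shf_emb : MeasurableEmbedding fun s : ℂ => s - 1 / 2 :=
  (Homeomorph.subRight (1 / 2 : ℂ)).measurableEmbedding

instance shf_fin (ν : Measure ℂ) [IsFiniteMeasure ν] : IsFiniteMeasure (shf ν) := by
  unfold shf; infer_instance

lemma shf_ae {ν : Measure ℂ} {b : ℝ} (h : ∀ᵐ s ∂ν, 1 / 2 ≤ s.re ∧ s.re ≤ b ∧ |s.im| ≤ b) :
    ∀ᵐ s ∂(shf ν), 0 ≤ s.re ∧ s.re ≤ |b| ∧ |s.im| ≤ |b| := by
  unfold shf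
  rw [shf_emb.ae_map_iff]
  filter_upwards [h] with s hs
  have h1 := le_abs_self b
  have e1 : (s - 1 / 2 : ℂ).re = s.re - 1 / 2 := by simp
  have e2 : (s - 1 / 2 : ℂ).im = s.im := by simp
  rw [e1, e2]
  exact ⟨by linarith [hs.1], by linarith [hs.2.1], by linarith [hs.2.2]⟩

lemma shf_pos {ν : Measure ℂ} (h : ∀ δ : ℝ, 0 < δ → 0 < ν {s : ℂ | s.re < 1 / 2 + δ}) :
    ∀ δ : ℝ, 0 < δ → 0 < (shf ν) {s : ℂ | s.re < δ} := by
  intro δ hδ
  unfold shf
  rw [shf_emb.map_apply]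
  convert h δ hδ using 2
  ext s
  have e1 : (s - 1 / 2 : ℂ).re = s.re - 1 / 2 := by simp
  simp only [Set.mem_preimage, Set.mem_setOf_eq, e1]
  constructor <;> intro h <;> linarith

lemma shf_int (ν : Measure ℂ) (t : ℝ) :
    ∫ s, Real.log ‖riemannZeta (1 / 2 + s + (t : ℂ) * I)‖ ∂(shf ν) = mean ν t := by
  unfold shf mean
  rw [shf_emb.integral_map]
  congr 1
  funext s
  rw [show (1 / 2 + (s - 1 / 2) + (t : ℂ) * I : ℂ) = s + (t : ℂ) * I by ring]

/-- the local theorem -/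
theorem local_os (ν : Measure ℂ) [IsFiniteMeasure ν] (hν : IsKernel ν) {κ : ℝ} (hκ : 0 < κ) :
    ∃ a R T₀ : ℝ, 0 < a ∧ 2 ≤ T₀ ∧ ∀ T : ℝ, T₀ ≤ T → T ^ κ ≤ ‖riemannZeta (1 / 2 + (T : ℂ) * I)‖ →
      ∃ t : ℝ, |t - T| ≤ R ∧ a * Real.log T ≤ mean ν t := by
  obtain ⟨b, hb⟩ := hν.1
  obtain ⟨a, R, T0, ha, H⟩ := zeta_os (shf_ae hb) (shf_pos hν.2) (abs_nonneg b) (κ := κ / 2) (by positivity)
  refine ⟨a, R, max T0 2, ha, le_max_right _ _, fun T hT hL => ?_⟩
  by_contra hcon
  push Not at hcon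
  have h1 : (2 : ℝ) ≤ T := (le_max_right _ _).trans hT
  have hlog : 0 < Real.log T := Real.log_pos (by linarith)
  have h2 := H T ((le_max_left _ _).trans hT) (by
    intro t ht
    have h3 := hcon (T + t) (by rwa [add_sub_cancel_left])
    rw [← shf_int] at h3
    exact h3.le)
  rw [Real.rpow_def_of_pos (by linarith)] at hL
  have h4 := Real.exp_le_exp.1 (hL.trans h2)
  nlinarith

/-- the criterion -/
theorem lin_os (ν : Measure ℂ) [IsFiniteMeasure ν] (hν : IsKernel ν) :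
    Lindelof ↔ ∀ ε : ℝ, 0 < ε → ∃ T₀ : ℝ, ∀ t : ℝ, T₀ ≤ t → mean ν t ≤ ε * Real.log t := by
  rw [lin_iff]
  constructor
  · intro h ε hε
    obtain ⟨b, hb⟩ := hν.1
    obtain ⟨T0, H⟩ := zeta_fwd h (shf_ae hb) (abs_nonneg b) hε
    refine ⟨T0, fun t ht => ?_⟩
    rw [← shf_int]
    exact H t ht
  · intro h κ' hκ'
    obtain ⟨κ, hκd⟩ : ∃ κ : ℝ, κ = κ' / 2 := ⟨_, rfl⟩
    have hκ : 0 < κ := by rw [hκd]; positivity
    obtain ⟨a, R, T0, ha, hT0, H⟩ := local_os ν hν hκ
    obtain ⟨T1, H1⟩ := h (a / 4) (by positivity)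
    rw [zero_add]
    have key : ∀ t : ℝ, max T0 (max (|R| + |T1| + 2) 1) ≤ t → Y757.LS.Z t < t ^ κ := by
      intro T hT
      have hT1 : T0 ≤ T := (le_max_left _ _).trans hT
      have hT2 : |R| + |T1| + 2 ≤ T := (le_max_left _ _).trans ((le_max_right _ _).trans hT)
      by_contra hcon
      push Not at hcon
      obtain ⟨t, ht1, ht2⟩ := H T hT1 hcon
      have a1 := le_abs_self T1
      have a2 := abs_nonneg T1
      have a3 := le_abs_self R
      have a4 := abs_nonneg R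
      rw [abs_le] at ht1
      have h3 := H1 t (by linarith [ht1.1])
      have h4 : Real.log t ≤ 2 * Real.log T := by
        have h5 : t ≤ T ^ 2 := by nlinarith [ht1.2]
        have h6 := Real.log_le_log (by linarith [ht1.1]) h5
        rw [Real.log_pow] at h6
        simpa using h6
      have h5 : 0 < Real.log T := Real.log_pos (by linarith)
      nlinarith
    have h2 := Y757.LS.exponent_of (κ := κ) (T₁ := max T0 (max (|R| + |T1| + 2) 1)) hκ.le key κ hκ
    rwa [show κ + κ = κ' by rw [hκd]; ring] at h2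

/-- length on the segment `[1/2, 1/2 + i h]` of the critical line -/
noncomputable def vert (h : ℝ) : Measure ℂ :=
  (volume.restrict (Icc (0 : ℝ) h)).map fun u : ℝ => (1 / 2 + (u : ℂ) * I : ℂ)

/-- length on the segment `[1/2, 1/2 + h]` -/
noncomputable def hori (h : ℝ) : Measure ℂ :=
  (volume.restrict (Icc (1 / 2 : ℝ) (1 / 2 + h))).map fun u : ℝ => (u : ℂ)

lemma vert_emb : MeasurableEmbedding fun u : ℝ => (1 / 2 + (u : ℂ) * I : ℂ) := by
  apply Continuous.measurableEmbedding (by fun_prop)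
  intro x y h
  have := congrArg Complex.im h
  simpa using this

lemma hori_emb : MeasurableEmbedding fun u : ℝ => (u : ℂ) :=
  Continuous.measurableEmbedding (by fun_prop) Complex.ofReal_injective

instance vert_fin (h : ℝ) : IsFiniteMeasure (vert h) := by
  unfold vert; infer_instance

instance hori_fin (h : ℝ) : IsFiniteMeasure (hori h) := by
  unfold hori; infer_instance

lemma vert_ker {h : ℝ} (hh : 0 < h) : IsKernel (vert h) := by
  constructor
  · refine ⟨max h 1, ?_⟩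
    unfold vert
    rw [vert_emb.ae_map_iff]
    filter_upwards [ae_restrict_mem measurableSet_Icc] with u hu
    have e1 : (1 / 2 + (u : ℂ) * I : ℂ).re = 1 / 2 := by simp
    have e2 : (1 / 2 + (u : ℂ) * I : ℂ).im = u := by simp
    rw [e1, e2, abs_of_nonneg hu.1]
    exact ⟨le_rfl, by linarith [le_max_right h 1], hu.2.trans (le_max_left _ _)⟩
  · intro δ hδ
    unfold vert
    rw [vert_emb.map_apply]
    have e : (fun u : ℝ => (1 / 2 + (u : ℂ) * I : ℂ)) ⁻¹' {s : ℂ | s.re < 1 / 2 + δ} = univ := by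
      ext u
      simp [hδ]
    rw [e, Measure.restrict_apply_univ, Real.volume_Icc]
    simpa using hh

lemma hori_ker {h : ℝ} (hh : 0 < h) : IsKernel (hori h) := by
  constructor
  · refine ⟨1 / 2 + h, ?_⟩
    unfold hori
    rw [hori_emb.ae_map_iff]
    filter_upwards [ae_restrict_mem measurableSet_Icc] with u hu
    rw [ofReal_re, ofReal_im, abs_zero]
    exact ⟨hu.1, hu.2, by linarith⟩
  · intro δ hδ
    unfold hori
    rw [hori_emb.map_apply]
    have e : Icc (1 / 2 : ℝ) (1 / 2 + min h (δ / 2)) ⊆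
        (fun u : ℝ => (u : ℂ)) ⁻¹' {s : ℂ | s.re < 1 / 2 + δ} ∩ Icc (1 / 2 : ℝ) (1 / 2 + h) := by
      intro u hu
      constructor
      · simp only [Set.mem_preimage, Set.mem_setOf_eq, ofReal_re]
        linarith [hu.2, min_le_right h (δ / 2)]
      · exact ⟨hu.1, by linarith [hu.2, min_le_left h (δ / 2)]⟩
    rw [Measure.restrict_apply' measurableSet_Icc]
    refine lt_of_lt_of_le ?_ (measure_mono e)
    rw [Real.volume_Icc]
    have : 0 < min h (δ / 2) := lt_min hh (by positivity)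
    simpa using ⟨hh, hδ⟩

lemma vert_mean (t : ℝ) {h : ℝ} (hh : 0 < h) :
    mean (vert h) t = ∫ u in t..(t + h), Real.log ‖riemannZeta (1 / 2 + (u : ℂ) * I)‖ := by
  unfold mean vert
  rw [vert_emb.integral_map, integral_Icc_eq_integral_Ioc, ← intervalIntegral.integral_of_le hh.le]
  have h1 := intervalIntegral.integral_comp_add_right (a := 0) (b := h)
    (fun u : ℝ => Real.log ‖riemannZeta (1 / 2 + (u : ℂ) * I)‖) t
  rw [zero_add, add_comm h t] at h1
  rw [← h1]
  congr 1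
  funext u
  congr 3
  push_cast
  ring

lemma hori_mean (t : ℝ) {h : ℝ} (hh : 0 < h) :
    mean (hori h) t = ∫ σ in (1 / 2 : ℝ)..(1 / 2 + h),
      Real.log ‖riemannZeta ((σ : ℂ) + (t : ℂ) * I)‖ := by
  unfold mean hori
  rw [hori_emb.integral_map, integral_Icc_eq_integral_Ioc,
    ← intervalIntegral.integral_of_le (by linarith)]

/-- **Main theorem.** Let `ν` be a finite measure on a bounded part of `Re s ≥ 1/2` which charges every
strip `Re s < 1/2 + δ`.  (1) For `κ > 0` there are `a > 0` and `R` such that `|ζ(1/2 + iT)| ≥ T^κ`, `T` large,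
forces `∫ log |ζ(s + it)| dν(s) ≥ a log T` for some `t` with `|t - T| ≤ R`.  (2) The Lindelöf hypothesis is
equivalent to the one-sided bound `∫ log |ζ(s + it)| dν(s) ≤ ε log t` for all `ε > 0` and large `t`.
(3) For every `h > 0` the Lindelöf hypothesis is equivalent to
`∫_t^{t+h} log |ζ(1/2 + iu)| du ≤ ε log t` for all `ε > 0` and large `t`; local form: a value
`|ζ(1/2 + iT)| ≥ T^κ` forces `∫_t^{t+h} log |ζ(1/2 + iu)| du ≥ a log T` for some `t` with `|t - T| ≤ R`.
(4) For every `h > 0` the Lindelöf hypothesis is equivalent to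
`∫_{1/2}^{1/2+h} log |ζ(σ + it)| dσ ≤ ε log t` for all `ε > 0` and large `t`. -/
theorem result :
    (∀ (ν : Measure ℂ) [IsFiniteMeasure ν], IsKernel ν → ∀ κ : ℝ, 0 < κ → ∃ a R T₀ : ℝ, 0 < a ∧
      ∀ T : ℝ, T₀ ≤ T → T ^ κ ≤ ‖riemannZeta (1 / 2 + (T : ℂ) * I)‖ →
      ∃ t : ℝ, |t - T| ≤ R ∧ a * Real.log T ≤ mean ν t) ∧
    (∀ (ν : Measure ℂ) [IsFiniteMeasure ν], IsKernel ν →
      (Lindelof ↔ ∀ ε : ℝ, 0 < ε → ∃ T₀ : ℝ, ∀ t : ℝ, T₀ ≤ t → mean ν t ≤ ε * Real.log t)) ∧
    (∀ h : ℝ, 0 < h →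
      (Lindelof ↔ ∀ ε : ℝ, 0 < ε → ∃ T₀ : ℝ, ∀ t : ℝ, T₀ ≤ t →
        ∫ u in t..(t + h), Real.log ‖riemannZeta (1 / 2 + (u : ℂ) * I)‖ ≤ ε * Real.log t) ∧
      ∀ κ : ℝ, 0 < κ → ∃ a R T₀ : ℝ, 0 < a ∧
        ∀ T : ℝ, T₀ ≤ T → T ^ κ ≤ ‖riemannZeta (1 / 2 + (T : ℂ) * I)‖ →
        ∃ t : ℝ, |t - T| ≤ R ∧
          a * Real.log T ≤ ∫ u in t..(t + h), Real.log ‖riemannZeta (1 / 2 + (u : ℂ) * I)‖) ∧
    (∀ h : ℝ, 0 < h →
      (Lindelof ↔ ∀ ε : ℝ, 0 < ε → ∃ T₀ : ℝ, ∀ t : ℝ, T₀ ≤ t →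
        ∫ σ in (1 / 2 : ℝ)..(1 / 2 + h), Real.log ‖riemannZeta ((σ : ℂ) + (t : ℂ) * I)‖ ≤
          ε * Real.log t)) := by
  have hloc : ∀ (ν : Measure ℂ) [IsFiniteMeasure ν], IsKernel ν → ∀ κ : ℝ, 0 < κ →
      ∃ a R T₀ : ℝ, 0 < a ∧ ∀ T : ℝ, T₀ ≤ T → T ^ κ ≤ ‖riemannZeta (1 / 2 + (T : ℂ) * I)‖ →
      ∃ t : ℝ, |t - T| ≤ R ∧ a * Real.log T ≤ mean ν t := by
    intro ν _ hν κ hκ
    obtain ⟨a, R, T0, ha, -, H⟩ := local_os ν hν hκ
    exact ⟨a, R, T0, ha, H⟩
  refine ⟨hloc, fun ν _ hν => lin_os ν hν, fun h hh => ⟨?_, ?_⟩, fun h hh => ?_⟩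
  · rw [lin_os (vert h) (vert_ker hh)]
    simp only [vert_mean _ hh]
  · intro κ hκ
    have := hloc (vert h) (vert_ker hh) κ hκ
    simpa only [vert_mean _ hh] using this
  · rw [lin_os (hori h) (hori_ker hh)]
    simp only [hori_mean _ hh]

end Pool.Agent.Results.MP_4e5e8a_nt.OneSidedMeans
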