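import Pool.Agent.Q32.Smp.ZLocal

/-!
# A sampling theorem for zeta on the critical line

The zeros of `ζ` at height `t` have mean spacing `2π / log t`.  Let `θ` be any number below `2π`.

* (Local inequality, unconditional) For every `ε > 0` there are `W` and `T₀` such that for `T ≥ T₀` and every set `V` that
  meets all intervals `[t, t + θ / log T]`, `|t - T| ≤ W`, one has `|ζ(1/2 + iT)| ≤ M T^ε` with
  `M = max(1, sup |ζ(1/2 + iv)|)`, the supremum over the `v ∈ V` with `|v - T| ≤ W`.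
* (Large values) So if `|ζ(1/2 + iT)| > M T^ε`, `M ≥ 1`, then `|ζ(1/2 + iu)| > M` on a whole interval of length
  `θ / log T` at distance at most `W` from `T`; in particular this interval contains no zero.
* (Sampling) Let `κ ≥ 0` and let `V` be a set that meets every interval `[t, t + θ / log t]` with `t` large.
  The bound `ζ(1/2 + it) ≪ |t|^(κ + ε)` (for every `ε > 0`) holds for all real `t` if and only if it holds for
  `t ∈ V`.  For `κ = 0` this is the Lindelöf hypothesis.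
* (Minima) The bound holds for all `t` if and only if, for every `ε > 0`, every interval `[t, t + θ / log t]` with
  `t` large contains at least one `u` with `|ζ(1/2 + iu)| ≤ u^(κ + ε)`.

Proof of the local inequality: let `|ζ(1/2 + ix)| ≤ T^μ` for `|x - T| ≤ W₀`.  On the disc
`|z| ≤ R` (`R` a small constant) the function `f(z) = (s - 1) ζ(s) T^(iz/2) / T`, `s = 1/2 + i(T + z)`, is at most
`exp(μ log T + |Im z| log T / 2 + O(R / W₀) log T)`: Poisson integral in the half plane `Re s ≥ 1/2` and the functional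
equation.  Subtract the Lagrange interpolation polynomial of `f` at `2n ~ 2 R log T / θ` sample points; it is at
most `M T^(O(R))`.  Jensen's inequality gives
`log |f(0)| ≤ max(log M + O(R) log T, μ log T + (R / π + O(R / W₀)) log T - 2 n (1 + o(1)))`; as `θ < 2π` the second
term is `≤ (μ - c R) log T`.  Iterate a bounded number of times, starting from a trivial bound.
-/

set_option autoImplicit false

open MeasureTheory Filter Set

namespace Pool.Agent.Results.MP_4e5e8a_nt.SamplingTheorem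

/-- `|ζ(1/2 + it)|` -/
noncomputable def Z (t : ℝ) : ℝ := ‖riemannZeta (1 / 2 + t * Complex.I)‖

/-- `|ζ(1/2 + it)| = O((1 + |t|)^(κ + ε))` for every `ε > 0`, for the heights `t` of the set `S`; for `κ = 0` and
`S = ℝ` this is the Lindelöf hypothesis. -/
def Exponent (κ : ℝ) (S : Set ℝ) : Prop :=
  ∀ ε : ℝ, 0 < ε → ∃ C : ℝ, ∀ t ∈ S, Z t ≤ C * (1 + |t|) ^ (κ + ε)

/-- `V` meets every interval `[t, t + θ / log t]` with `t` large. -/
def Meets (θ : ℝ) (V : Set ℝ) : Prop :=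
  ∃ T₀ : ℝ, ∀ t : ℝ, T₀ ≤ t → ∃ v ∈ V, t ≤ v ∧ v ≤ t + θ / Real.log t

lemma Z_cont : Continuous Z := by
  rw [continuous_iff_continuousAt]
  intro t
  have hne : (1 / 2 + t * Complex.I : ℂ) ≠ 1 := by
    intro h
    have := congrArg Complex.re h
    simp at this
  have h1 : ContinuousAt riemannZeta (1 / 2 + t * Complex.I) :=
    (differentiableAt_riemannZeta hne).continuousAt
  have h2 : ContinuousAt (fun x : ℝ => (1 / 2 + x * Complex.I : ℂ)) t := by fun_prop
  exact (ContinuousAt.comp (f := fun x : ℝ => (1 / 2 + x * Complex.I : ℂ)) h1 h2).norm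

lemma Z_neg (t : ℝ) : Z (-t) = Z t := by
  unfold Z
  have e : (1 / 2 + ((-t : ℝ) : ℂ) * Complex.I : ℂ) = (starRingEnd ℂ) (1 / 2 + t * Complex.I) := by
    apply Complex.ext <;> simp
  rw [e, riemannZeta_conj, RCLike.norm_conj]

lemma Z_abs (t : ℝ) : Z |t| = Z t := by
  rcases abs_choice t with h | h
  · rw [h]
  · rw [h, Z_neg]

lemma to_zadm {κ : ℝ} (hκ : 0 ≤ κ) {V : Set ℝ} (h : Exponent κ V) : Pool.Agent.Q32.Smp.ZAdm V κ := by
  intro ε hε
  obtain ⟨C, hC⟩ := h ε hε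
  refine ⟨|C| * 2 ^ (κ + ε), fun t ht2 ht => (hC t ht).trans ?_⟩
  have ht0 : 0 < t := by linarith
  rw [abs_of_pos ht0]
  have h1 : (1 + t) ^ (κ + ε) ≤ (2 * t) ^ (κ + ε) :=
    Real.rpow_le_rpow (by linarith) (by linarith) (by linarith)
  rw [Real.mul_rpow (by norm_num) ht0.le] at h1
  calc C * (1 + t) ^ (κ + ε) ≤ |C| * (1 + t) ^ (κ + ε) :=
        mul_le_mul_of_nonneg_right (le_abs_self C) (Real.rpow_nonneg (by linarith) _)
    _ ≤ |C| * (2 ^ (κ + ε) * t ^ (κ + ε)) := mul_le_mul_of_nonneg_left h1 (abs_nonneg C)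
    _ = |C| * 2 ^ (κ + ε) * t ^ (κ + ε) := by ring

lemma of_zadm {κ : ℝ} (hκ : 0 ≤ κ) (h : Pool.Agent.Q32.Smp.ZAdm univ κ) : Exponent κ univ := by
  intro ε hε
  obtain ⟨B, hB⟩ := h ε hε
  obtain ⟨M, hM⟩ := (isCompact_Icc (a := (0:ℝ)) (b := 2)).exists_bound_of_continuousOn
    Z_cont.continuousOn
  refine ⟨max (max B M) 0, fun t _ => ?_⟩
  have h0 := abs_nonneg t
  have hmx : 0 ≤ max (max B M) 0 := le_max_right _ _
  rw [← Z_abs t]
  rcases le_or_gt 2 |t| with h2 | h2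
  · calc Z |t| ≤ B * |t| ^ (κ + ε) := hB |t| h2 (mem_univ _)
      _ ≤ max (max B M) 0 * |t| ^ (κ + ε) :=
          mul_le_mul_of_nonneg_right ((le_max_left _ _).trans (le_max_left _ _))
            (Real.rpow_nonneg h0 _)
      _ ≤ max (max B M) 0 * (1 + |t|) ^ (κ + ε) := by
          refine mul_le_mul_of_nonneg_left ?_ hmx
          exact Real.rpow_le_rpow h0 (by linarith) (by linarith)
  · have h3 := hM |t| ⟨h0, h2.le⟩
    have h4 : Z |t| ≤ M := (le_abs_self _).trans h3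
    have h5 : 1 ≤ (1 + |t|) ^ (κ + ε) := Real.one_le_rpow (by linarith) (by linarith)
    calc Z |t| ≤ M := h4
      _ ≤ max (max B M) 0 := (le_max_right _ _).trans (le_max_left _ _)
      _ ≤ _ := le_mul_of_one_le_right hmx h5

/-- **Main theorem.** Let `0 < θ < 2π`.  (1) The local inequality: values at sample points with gaps `≤ θ / log T`
near `T` bound `|ζ(1/2 + iT)|` up to a factor `T^ε`.  (2) Near a value `> M T^ε` there is a whole interval of length
`θ / log T` with values `> M`.  (3) If `V` meets every interval `[t, t + θ / log t]` with `t` large, then `κ ≥ 0` is an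
admissible exponent for all heights if and only if it is one for the heights in `V`.
(4) It is one for all heights if and only if for every `ε > 0` every interval `[t, t + θ / log t]`, `t` large,
contains a `u` with `|ζ(1/2 + iu)| ≤ u^(κ + ε)`. -/
theorem result (θ : ℝ) (hθ : 0 < θ) (hθ2 : θ < 2 * Real.pi) :
    (∀ ε : ℝ, 0 < ε → ∃ W T₀ : ℝ, 0 < W ∧ ∀ T : ℝ, T₀ ≤ T → ∀ V : Set ℝ,
      (∀ t : ℝ, |t - T| ≤ W → ∃ v ∈ V, t ≤ v ∧ v ≤ t + θ / Real.log T) →
      ∀ M : ℝ, 1 ≤ M → (∀ v ∈ V, |v - T| ≤ W → Z v ≤ M) → Z T ≤ M * T ^ ε) ∧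
    (∀ ε : ℝ, 0 < ε → ∃ W T₀ : ℝ, 0 < W ∧ ∀ T : ℝ, T₀ ≤ T → ∀ M : ℝ, 1 ≤ M → M * T ^ ε < Z T →
      ∃ t : ℝ, |t - T| ≤ W ∧ ∀ u : ℝ, t ≤ u → u ≤ t + θ / Real.log T → M < Z u) ∧
    ∀ κ : ℝ, 0 ≤ κ →
      (∀ V : Set ℝ, Meets θ V → (Exponent κ univ ↔ Exponent κ V)) ∧
      (Exponent κ univ ↔ ∀ ε : ℝ, 0 < ε → ∃ T₀ : ℝ, ∀ t : ℝ, T₀ ≤ t →
        ∃ u : ℝ, t ≤ u ∧ u ≤ t + θ / Real.log t ∧ Z u ≤ u ^ (κ + ε)) := by
  have hloc : ∀ ε : ℝ, 0 < ε → ∃ W T₀ : ℝ, 0 < W ∧ ∀ T : ℝ, T₀ ≤ T → ∀ V : Set ℝ,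
      (∀ t : ℝ, |t - T| ≤ W → ∃ v ∈ V, t ≤ v ∧ v ≤ t + θ / Real.log T) →
      ∀ M : ℝ, 1 ≤ M → (∀ v ∈ V, |v - T| ≤ W → Z v ≤ M) → Z T ≤ M * T ^ ε :=
    fun ε hε => Pool.Agent.Q32.Smp.zlocal hθ hθ2 hε
  refine ⟨hloc, fun ε hε => ?_, fun κ hκ => ?_⟩
  · obtain ⟨W, T₀, hW, h⟩ := hloc ε hε
    refine ⟨W, T₀, hW, fun T hT M hM hlarge => ?_⟩
    by_contra hcon
    push Not at hcon
    have h1 := h T hT {u : ℝ | Z u ≤ M} (fun t ht => by
      obtain ⟨u, hu1, hu2, hu3⟩ := hcon t ht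
      exact ⟨u, hu3, hu1, hu2⟩) M hM (fun v hv _ => hv)
    linarith
  have hsamp : ∀ (κ : ℝ) (V : Set ℝ), 0 ≤ κ → Meets θ V → Pool.Agent.Q32.Smp.ZAdm V κ →
      Exponent κ univ := fun κ V hκ hV h =>
    of_zadm hκ (Pool.Agent.Q32.Smp.zsample hθ hθ2 hκ hV h)
  refine ⟨fun V hV => ⟨fun h ε hε => ?_, fun h => hsamp κ V hκ hV (to_zadm hκ h)⟩,
    fun h ε hε => ?_, fun h ε hε => ?_⟩
  · obtain ⟨C, hC⟩ := h ε hε
    exact ⟨C, fun t _ => hC t (mem_univ t)⟩
  · obtain ⟨B, hB⟩ := to_zadm hκ h (ε / 2) (by linarith)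
    refine ⟨max 3 ((|B| + 1) ^ (2 / ε)), fun t hT => ⟨t, le_rfl, ?_, ?_⟩⟩
    · have h3 : (3 : ℝ) ≤ t := (le_max_left _ _).trans hT
      have h4 : 0 ≤ Real.log t := Real.log_nonneg (by linarith)
      have : 0 ≤ θ / Real.log t := div_nonneg hθ.le h4
      linarith
    · have h3 : (3 : ℝ) ≤ t := (le_max_left _ _).trans hT
      have hQp : 0 < t := by linarith
      have h4 : (|B| + 1) ^ (2 / ε) ≤ t := (le_max_right _ _).trans hT
      have h5 : |B| + 1 ≤ t ^ (ε / 2) := by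
        have h6 := Real.rpow_le_rpow (by positivity) h4 (by linarith : 0 ≤ ε / 2)
        rw [← Real.rpow_mul (by positivity)] at h6
        have : 2 / ε * (ε / 2) = 1 := by field_simp
        rwa [this, Real.rpow_one] at h6
      have h6 : t ^ (κ + ε) = t ^ (ε / 2) * t ^ (κ + ε / 2) := by
        rw [← Real.rpow_add hQp]; congr 1; ring
      rw [h6]
      refine (hB t (by linarith) (mem_univ _)).trans ?_
      refine mul_le_mul_of_nonneg_right ?_ (by positivity)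
      linarith [le_abs_self B]
  · obtain ⟨T₀, hT₀⟩ := h (ε / 2) (by linarith)
    have h1 := hsamp (κ + ε / 2) {u : ℝ | Z u ≤ u ^ (κ + ε / 2)} (by linarith)
      ⟨T₀, fun t ht => by
        obtain ⟨u, hu1, hu2, hu3⟩ := hT₀ t ht
        exact ⟨u, hu3, hu1, hu2⟩⟩ (by
        intro ε' hε'
        refine ⟨1, fun t ht2 ht => ?_⟩
        rw [one_mul]
        have h2 : Z t ≤ t ^ (κ + ε / 2) := ht
        exact h2.trans (Real.rpow_le_rpow_of_exponent_le (by linarith) (by linarith)))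
    obtain ⟨C, hC⟩ := h1 (ε / 2) (by linarith)
    refine ⟨C, fun t ht => ?_⟩
    have := hC t ht
    rwa [add_assoc, add_halves] at this

end Pool.Agent.Results.MP_4e5e8a_nt.SamplingTheorem
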