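import Pool.Agent.Q27.LS2

/-!
# The Lindelof hypothesis and the zeros of `ξ(s + a) + w ξ(s - a)`

For `a > 0` and `|w| = 1` the zeros of `F_w(s) = ξ(s + a) + w ξ(s - a)` are symmetric about the critical
line, and for `a ≥ 1/2` all of them lie on it.  Let `0 < a < 1/2`, and let `w₁ ≠ w₂` be of modulus one, for
instance `1` and `-1`.  We show that `ζ(σ + it) = O(|t|^ε)` for all `ε > 0` and all `σ > 1/2 + a` if and
only if, for all `δ > 0`, each of the two functions `F_{w₁}`, `F_{w₂}` has only `o(log T)` zeros with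
`Re s ≥ 1/2 + δ` (and `Re s ≤ X`), `|Im s - T| ≤ 1`; in this case the same is true for all `w`, uniformly.
Consequently the Lindelof hypothesis holds if and only if, for every `0 < a < 1/2`, the sum
`ξ(s + a) + ξ(s - a)` and the difference `ξ(s + a) - ξ(s - a)` have this property.

Proof of the new direction.  Near the height `T` the function `F_w` is of the size of `ξ(s + a)` in the
half-plane of absolute convergence, and has few zeros to the right of `Re s = 1/2 + δ`; dividing them out and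
using the theorem of Borel and Caratheodory and the three circles theorem one finds that `F_w` is at most
`T^ε` times as large as the main factor of `ξ(s + a)` there.  The function `ξ(s + a)` itself is a linear
combination of `F_{w₁}` and `F_{w₂}`.
-/

set_option autoImplicit false

namespace Pool.Agent.Results.MP_4e5e8a_nt.ShiftedSumsLindelof

open Complex

/-- The Riemann xi function `s (s - 1) π^(-s/2) Γ(s/2) ζ(s) / 2`, as an entire function. -/
noncomputable def xi (s : ℂ) : ℂ := s * (s - 1) / 2 * completedRiemannZeta₀ s + 1 / 2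

/-- The shifted sum `ξ(s + a) + w ξ(s - a)`. -/
noncomputable def shiftSum (a : ℝ) (w s : ℂ) : ℂ := xi (s + a) + w * xi (s - a)

/-- For all `δ, ε > 0` and `X` and all large `T`, for all `w` in the set `A`: any finitely many zeros of
`ξ(s + a) + w ξ(s - a)` with `1/2 + δ ≤ Re s ≤ X` and `|Im s - T| ≤ 1` have total multiplicity at most
`ε log T`. -/
def FewZeros (a : ℝ) (A : Set ℂ) : Prop := ∀ δ ε X : ℝ, 0 < δ → 0 < ε → ∃ T₀ : ℝ, ∀ T : ℝ, T₀ ≤ T →
  ∀ w ∈ A, ∀ S : Finset ℂ,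
    (∀ s ∈ S, shiftSum a w s = 0 ∧ 1 / 2 + δ ≤ s.re ∧ s.re ≤ X ∧ |s.im - T| ≤ 1) →
    ∑ s ∈ S, (analyticOrderNatAt (shiftSum a w) s : ℝ) ≤ ε * Real.log T

/-- `ζ(σ + it) = O(|t|^ε)` for every `ε > 0`. -/
def Small (σ : ℝ) : Prop := ∀ ε : ℝ, 0 < ε → ∃ C : ℝ, ∀ t : ℝ, 1 ≤ |t| →
  ‖riemannZeta (σ + t * I)‖ ≤ C * |t| ^ ε

/-- The Lindelof hypothesis. -/
def Lindelof : Prop := ∀ ε : ℝ, 0 < ε → ∃ C : ℝ, ∀ t : ℝ,
  ‖riemannZeta (1 / 2 + t * I)‖ ≤ C * (1 + |t|) ^ ε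

open Pool.Agent.H24R2.JP (XX)
open Pool.Agent.Q27.ZS Pool.Agent.Q27.LS
open Pool.Agent.W169.HF (Cnt cnt_mono)

lemma xi_eq (s : ℂ) : xi s = XX (s - 1 / 2) / 8 := by
  unfold xi XX
  have e : (1 : ℂ) / 2 + (s - 1 / 2) = s := by ring
  rw [e]
  ring

lemma shift_eq (a : ℝ) (w s : ℂ) : shiftSum a w s = sh a w (s - 1 / 2) / 8 := by
  unfold shiftSum sh
  rw [xi_eq, xi_eq]
  have e1 : s + (a : ℂ) - 1 / 2 = s - 1 / 2 + a := by ring
  have e2 : s - (a : ℂ) - 1 / 2 = s - 1 / 2 - a := by ring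
  rw [e1, e2]
  ring

lemma ord_eq {a : ℝ} (ha : 0 < a) (ha1 : a < 1 / 2) {w : ℂ} (hw : ‖w‖ = 1) (s : ℂ) :
    analyticOrderNatAt (shiftSum a w) s = analyticOrderNatAt (sh a w) (s - 1 / 2) := by
  have h := Pool.Agent.W186.LH.ord_tr (G := sh a w) (E := fun _ => (1 / 8 : ℂ)) (sh_diff a w)
    (sh_ne ha ha1 w hw) (a := 1) (b := -(1 / 2)) one_ne_zero (by fun_prop) (fun _ => by norm_num) s
  have e : (fun u : ℂ => sh a w (1 * u + -(1 / 2)) * (1 / 8)) = shiftSum a w := by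
    funext u
    rw [shift_eq, one_mul, sub_eq_add_neg]
    ring
  rw [e, one_mul, ← sub_eq_add_neg] at h
  exact h

/-- the counts in the two notations -/
lemma cnt_iff {a : ℝ} (ha : 0 < a) (ha1 : a < 1 / 2) {w : ℂ} (hw : ‖w‖ = 1) (δ X T B : ℝ) :
    (∀ S : Finset ℂ, (∀ s ∈ S, shiftSum a w s = 0 ∧ 1 / 2 + δ ≤ s.re ∧ s.re ≤ X ∧ |s.im - T| ≤ 1) →
      ∑ s ∈ S, (analyticOrderNatAt (shiftSum a w) s : ℝ) ≤ B) ↔
    Cnt (sh a w) {u : ℂ | δ ≤ u.re ∧ u.re ≤ X - 1 / 2 ∧ |u.im - T| ≤ 1} B := by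
  classical
  have hr : ∀ s : ℂ, (s - 1 / 2).re = s.re - 1 / 2 := fun s => by simp
  have hi : ∀ s : ℂ, (s - 1 / 2).im = s.im := fun s => by simp
  have hr' : ∀ s : ℂ, (s + 1 / 2).re = s.re + 1 / 2 := fun s => by simp
  have hi' : ∀ s : ℂ, (s + 1 / 2).im = s.im := fun s => by simp
  constructor
  · intro h S hS
    have h1 := h (S.image fun z => z + 1 / 2) (by
      intro z hz
      rw [Finset.mem_image] at hz
      obtain ⟨u, hu, rfl⟩ := hz
      obtain ⟨h1, h2, h3, h4⟩ := hS u hu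
      refine ⟨?_, by rw [hr']; linarith, by rw [hr']; linarith, by rw [hi']; exact h4⟩
      rw [shift_eq, add_sub_cancel_right, h1, zero_div])
    rw [Finset.sum_image (by intro x _ y _ hxy; simpa using hxy)] at h1
    refine le_trans (le_of_eq ?_) h1
    apply Finset.sum_congr rfl
    intro z _
    rw [ord_eq ha ha1 hw, add_sub_cancel_right]
  · intro h S hS
    have h1 := h (S.image fun z => z - 1 / 2) (by
      intro z hz
      rw [Finset.mem_image] at hz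
      obtain ⟨u, hu, rfl⟩ := hz
      obtain ⟨h1, h2, h3, h4⟩ := hS u hu
      refine ⟨?_, by rw [hr]; linarith, by rw [hr]; linarith, by rw [hi]; exact h4⟩
      rw [shift_eq] at h1
      simpa using h1)
    rw [Finset.sum_image (by intro x _ y _ hxy; simpa using hxy)] at h1
    refine le_trans (le_of_eq ?_) h1
    apply Finset.sum_congr rfl
    intro z _
    rw [ord_eq ha ha1 hw]

lemma few_all {a : ℝ} (ha : 0 < a) (ha1 : a < 1 / 2) : FewZeros a {w | ‖w‖ = 1} ↔ FWU a := by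
  constructor
  · intro h δ ε X hδ hε
    obtain ⟨T0, h0⟩ := h δ ε (X + 1 / 2) hδ hε
    refine ⟨T0, fun T w hT hw => ?_⟩
    have h1 := (cnt_iff ha ha1 hw δ (X + 1 / 2) T (ε * Real.log T)).1 (h0 T hT w hw)
    rwa [add_sub_cancel_right] at h1
  · intro h δ ε X hδ hε
    obtain ⟨T0, h0⟩ := h δ ε (X - 1 / 2) hδ hε
    exact ⟨T0, fun T hT w hw => (cnt_iff ha ha1 hw δ X T (ε * Real.log T)).2 (h0 T w hT hw)⟩

lemma few_pair {a : ℝ} (ha : 0 < a) (ha1 : a < 1 / 2) {w₁ w₂ : ℂ} (hw₁ : ‖w₁‖ = 1) (hw₂ : ‖w₂‖ = 1) :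
    FewZeros a {w₁, w₂} ↔ (FW a w₁ ∧ FW a w₂) := by
  constructor
  · intro h
    have key : ∀ w ∈ ({w₁, w₂} : Set ℂ), ‖w‖ = 1 → FW a w := by
      intro w hw hw1 δ ε X hδ hε
      obtain ⟨T0, h0⟩ := h δ ε (X + 1 / 2) hδ hε
      refine ⟨T0, fun T hT => ?_⟩
      have h1 := (cnt_iff ha ha1 hw1 δ (X + 1 / 2) T (ε * Real.log T)).1 (h0 T hT w hw)
      rwa [add_sub_cancel_right] at h1
    exact ⟨key w₁ (by simp) hw₁, key w₂ (by simp) hw₂⟩
  · rintro ⟨h1, h2⟩ δ ε X hδ hε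
    obtain ⟨T1, h1'⟩ := h1 δ ε (X - 1 / 2) hδ hε
    obtain ⟨T2, h2'⟩ := h2 δ ε (X - 1 / 2) hδ hε
    refine ⟨max T1 T2, fun T hT w hw => ?_⟩
    have g1 : T1 ≤ T := (le_max_left _ _).trans hT
    have g2 : T2 ≤ T := (le_max_right _ _).trans hT
    rcases hw with rfl | hw
    · exact (cnt_iff ha ha1 hw₁ δ X T (ε * Real.log T)).2 (h1' T g1)
    · rw [Set.mem_singleton_iff] at hw
      subst hw
      exact (cnt_iff ha ha1 hw₂ δ X T (ε * Real.log T)).2 (h2' T g2)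

lemma small_iff (a : ℝ) : (∀ σ : ℝ, 1 / 2 + a < σ → σ ≤ 1 → Small σ) ↔ LA a := by
  constructor
  · intro h r hr hr1 ε hε
    rw [zero_add]
    exact h (1 / 2 + r) (by linarith) (by linarith) ε hε
  · intro h σ h1 h2 ε hε
    have := h (σ - 1 / 2) (by linarith) (by linarith) ε hε
    rwa [zero_add, show 1 / 2 + (σ - 1 / 2) = σ by ring] at this

/-- **Theorem.**  (1) Let `0 < a < 1/2`, and let `w₁ ≠ w₂` be of modulus one.  Equivalent are: (i)
`ζ(σ + it) = O(|t|^ε)` for all `ε > 0` and `1/2 + a < σ ≤ 1`; (ii) all the functions `ξ(s + a) + w ξ(s - a)`,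
`|w| = 1`, have, uniformly, few zeros to the right of the critical line; (iii) this is true for `w₁` and
`w₂`.

(2) The Lindelof hypothesis holds if and only if for all `0 < a < 1/2` the sum `ξ(s + a) + ξ(s - a)` and the
difference `ξ(s + a) - ξ(s - a)` have few zeros to the right of the critical line. -/
theorem result :
    (∀ a : ℝ, 0 < a → a < 1 / 2 → ∀ w₁ w₂ : ℂ, ‖w₁‖ = 1 → ‖w₂‖ = 1 → w₁ ≠ w₂ →
      List.TFAE [∀ σ : ℝ, 1 / 2 + a < σ → σ ≤ 1 → Small σ,
        FewZeros a {w | ‖w‖ = 1},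
        FewZeros a {w₁, w₂}]) ∧
    (Lindelof ↔ ∀ a : ℝ, 0 < a → a < 1 / 2 → FewZeros a {1, -1}) := by
  constructor
  · intro a ha ha1 w₁ w₂ hw₁ hw₂ hne
    have hm := Pool.Agent.Q27.LS.main ha ha1 hw₁ hw₂ hne
    rw [← small_iff, ← few_all ha ha1, ← few_pair ha ha1 hw₁ hw₂] at hm
    exact hm
  · have h1 : Lindelof ↔ Pool.Agent.W186.LH.LHyp := Iff.rfl
    rw [h1, main_lh]
    refine forall_congr' fun a => forall_congr' fun ha => forall_congr' fun ha1 => ?_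
    rw [few_pair ha ha1 norm_one (by rw [norm_neg, norm_one])]

end Pool.Agent.Results.MP_4e5e8a_nt.ShiftedSumsLindelof
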